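import Pool.Agent.Helper62.WB.Goals

/-!
# Packet WB-FO: an invariant mean gives Foelner sets
-/

set_option autoImplicit false

namespace Pool.Agent.Helper41.WB

open scoped Classical Pointwise
open Pool.Agent.Helper62.WB

/-- a piecewise translation by finitely many elements which is injective preserves the mean -/
theorem mean_image {G : Type} [Group G] (μ : Set G → ℝ)
    (hadd : ∀ A B : Set G, Disjoint A B → μ (A ∪ B) = μ A + μ B)
    (hinv : ∀ (g : G) (A : Set G), μ ((fun x => g * x) '' A) = μ A)
    (f : G → G) (hf : Function.Injective f) (K : Finset G) :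
    ∀ A : Set G, (∀ x ∈ A, ∃ k ∈ K, f x = k * x) → μ (f '' A) = μ A := by
  induction K using Finset.induction_on with
  | empty =>
    intro A hA
    have hA0 : A = ∅ := by
      rw [Set.eq_empty_iff_forall_notMem]
      intro x hx
      obtain ⟨k, hk, -⟩ := hA x hx
      simp at hk
    rw [hA0, Set.image_empty]
  | insert k K' hk ih =>
    intro A hA
    set A1 : Set G := {x | x ∈ A ∧ f x = k * x} with hA1
    set A2 : Set G := {x | x ∈ A ∧ f x ≠ k * x} with hA2
    have hAu : A = A1 ∪ A2 := by
      ext x
      simp only [hA1, hA2, Set.mem_union, Set.mem_ofPred_eq]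
      tauto
    have hd : Disjoint A1 A2 := by
      rw [Set.disjoint_left]
      rintro x ⟨_, h1⟩ ⟨_, h2⟩
      exact h2 h1
    have hfd : Disjoint (f '' A1) (f '' A2) := by
      rw [Set.disjoint_image_iff hf]
      exact hd
    have h1 : f '' A1 = (fun x => k * x) '' A1 := by
      apply Set.image_congr
      intro x hx
      exact hx.2
    have h2 : μ (f '' A2) = μ A2 := by
      apply ih
      intro x hx
      obtain ⟨k', hk', hfx⟩ := hA x hx.1
      rw [Finset.mem_insert] at hk'
      rcases hk' with h | h
      · exact absurd (h ▸ hfx) hx.2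
      · exact ⟨k', h, hfx⟩
    rw [hAu, Set.image_union, hadd _ _ hfd, hadd _ _ hd, h1, hinv, h2]

/-- the packet FO -/
theorem fo : StmtFO := by
  intro G _ ⟨μ, hpos, hone, hadd, hinv⟩
  by_contra hF
  unfold Foel at hF
  push Not at hF
  obtain ⟨S, ε, hε, hS⟩ := hF
  set S' : Finset G := insert 1 S with hS'
  -- one step
  have hstep : ∀ F : Finset G, F.Nonempty → (1 + ε) * (F.card : ℝ) ≤ ((S' * F).card : ℝ) := by
    intro F hFn
    obtain ⟨s, hs, hlt⟩ := hS F hFn
    have hsub : F ∪ (F.filter (fun x => s * x ∉ F)).image (fun x => s * x) ⊆ S' * F := by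
      intro y hy
      rw [Finset.mem_union] at hy
      rcases hy with hy | hy
      · rw [Finset.mem_mul]
        exact ⟨1, Finset.mem_insert_self _ _, y, hy, one_mul y⟩
      · rw [Finset.mem_image] at hy
        obtain ⟨x, hx, rfl⟩ := hy
        exact Finset.mul_mem_mul (Finset.mem_insert_of_mem hs) (Finset.mem_filter.1 hx).1
    have hdis : Disjoint F ((F.filter (fun x => s * x ∉ F)).image (fun x => s * x)) := by
      rw [Finset.disjoint_left]
      intro y hy hy2
      rw [Finset.mem_image] at hy2
      obtain ⟨x, hx, rfl⟩ := hy2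
      exact (Finset.mem_filter.1 hx).2 hy
    have hcard : ((F.filter (fun x => s * x ∉ F)).image (fun x => s * x)).card
        = (F.filter (fun x => s * x ∉ F)).card :=
      Finset.card_image_of_injective _ (mul_right_injective s)
    have hle := Finset.card_le_card hsub
    rw [Finset.card_union_of_disjoint hdis, hcard] at hle
    have hle' : (F.card : ℝ) + ((F.filter (fun x => s * x ∉ F)).card : ℝ) ≤ ((S' * F).card : ℝ) := by
      exact_mod_cast hle
    linarith
  have hpow : ∀ (j : ℕ) (F : Finset G), F.Nonempty →
      (1 + ε) ^ j * (F.card : ℝ) ≤ ((S' ^ j * F).card : ℝ) := by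
    intro j
    induction j with
    | zero =>
      intro F _
      simp
    | succ j ih =>
      intro F hFn
      have hne : (S' ^ j * F).Nonempty := by
        refine Finset.Nonempty.mul ?_ hFn
        exact Finset.Nonempty.pow ⟨1, Finset.mem_insert_self _ _⟩
      have h1 := ih F hFn
      have h2 := hstep _ hne
      rw [pow_succ' S' j, mul_assoc]
      calc (1 + ε) ^ (j + 1) * (F.card : ℝ) = (1 + ε) * ((1 + ε) ^ j * (F.card : ℝ)) := by ring
        _ ≤ (1 + ε) * ((S' ^ j * F).card : ℝ) := by
            apply mul_le_mul_of_nonneg_left h1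
            linarith
        _ ≤ _ := h2
  obtain ⟨j, hj⟩ := pow_unbounded_of_one_lt (2 : ℝ) (show (1 : ℝ) < 1 + ε by linarith)
  set K : Finset G := S' ^ j with hK
  have hdouble : ∀ F : Finset G, 2 * F.card ≤ (K * F).card := by
    intro F
    rcases F.eq_empty_or_nonempty with h | h
    · simp [h]
    · have h1 := hpow j F h
      have h2 : (2 : ℝ) * (F.card : ℝ) ≤ ((K * F).card : ℝ) := by
        refine le_trans ?_ h1
        apply mul_le_mul_of_nonneg_right hj.le
        positivity
      exact_mod_cast h2
  -- Hall
  obtain ⟨f, hfinj, hft⟩ := (Finset.all_card_le_biUnion_card_iff_exists_injective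
    (fun p : G × Bool => K.image (fun k => k * p.1))).1 (by
      intro s
      set F : Finset G := s.image Prod.fst with hF
      have h1 : s.card ≤ 2 * F.card := by
        have hsub : s ⊆ F ×ˢ (Finset.univ : Finset Bool) := by
          intro p hp
          rw [Finset.mem_product]
          exact ⟨Finset.mem_image_of_mem _ hp, Finset.mem_univ _⟩
        have := Finset.card_le_card hsub
        rw [Finset.card_product, Finset.card_univ, Fintype.card_bool] at this
        omega
      have h2 : K * F ⊆ s.biUnion (fun p : G × Bool => K.image (fun k => k * p.1)) := by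
        intro y hy
        rw [Finset.mem_mul] at hy
        obtain ⟨k, hk, x, hx, rfl⟩ := hy
        rw [hF, Finset.mem_image] at hx
        obtain ⟨p, hp, rfl⟩ := hx
        rw [Finset.mem_biUnion]
        exact ⟨p, hp, Finset.mem_image_of_mem _ hk⟩
      exact le_trans h1 (le_trans (hdouble F) (Finset.card_le_card h2)))
  have hb : ∀ b : Bool, μ (Set.range (fun x => f (x, b))) = 1 := by
    intro b
    have hinjb : Function.Injective (fun x => f (x, b)) := by
      intro x y hxy
      have := hfinj hxy
      exact (Prod.mk.inj this).1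
    rw [← Set.image_univ, mean_image μ hadd hinv _ hinjb K Set.univ (by
      intro x _
      have := hft (x, b)
      rw [Finset.mem_image] at this
      obtain ⟨k, hk, hkx⟩ := this
      exact ⟨k, hk, hkx.symm⟩), hone]
  have hdisj : Disjoint (Set.range (fun x => f (x, true))) (Set.range (fun x => f (x, false))) := by
    rw [Set.disjoint_left]
    rintro _ ⟨x, rfl⟩ ⟨y, hy⟩
    have := hfinj hy
    simp at this
  have hu := hadd _ _ hdisj
  rw [hb true, hb false] at hu
  have hc := hadd (Set.range (fun x => f (x, true)) ∪ Set.range (fun x => f (x, false)))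
    (Set.range (fun x => f (x, true)) ∪ Set.range (fun x => f (x, false)))ᶜ
    disjoint_compl_right
  rw [Set.union_compl_self, hone, hu] at hc
  have := hpos (Set.range (fun x => f (x, true)) ∪ Set.range (fun x => f (x, false)))ᶜ
  linarith

end Pool.Agent.Helper41.WB
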